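import Pool.Agent.X214.NV.Final
import Pool.Agent.TH885.CO.Plus
import Pool.Agent.TH442.NF.Std

/-! Vectors of multiplicities which are near-uniform on some of the points. -/

set_option autoImplicit false

namespace Pool.Agent.X214.NV

open Finset Pool.Agent.H932R3 Pool.Agent.TH442.NF

/-- The set `S` has at least `36` points, and for some `m ≥ 1` the vector `v` takes only the values
`m`, `m + 1` on `S`. -/
def NearOn {n : ℕ} (v : Fin n → ℕ) (S : Finset (Fin n)) : Prop :=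
  36 ≤ S.card ∧ ∃ m : ℕ, 1 ≤ m ∧ ∀ i ∈ S, v i = m ∨ v i = m + 1

theorem near_emb {n k : ℕ} {v : Fin n → ℕ} {S : Finset (Fin n)} (hS : S.card = k)
    {e : Fin k ↪ Fin n} (he : ∀ j, e j ∈ S) (h : NearOn v S) : NearRegular fun j => v (e j) := by
  obtain ⟨h36, m, hm, hv⟩ := h
  exact ⟨hS ▸ h36, m, hm, fun j => hv _ (he j)⟩

theorem sum_emb {n k : ℕ} (f : Fin n → ℕ) {S : Finset (Fin n)} (hS : S.card = k)
    {e : Fin k ↪ Fin n} (he : ∀ j, e j ∈ S) : ∑ j, f (e j) = ∑ i ∈ S, f i := by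
  classical
  have e1 : S = univ.map e := by
    symm
    apply Finset.eq_of_subset_of_card_le
    · intro i hi
      obtain ⟨j, -, rfl⟩ := Finset.mem_map.1 hi
      exact he j
    · rw [Finset.card_map, Finset.card_univ, Fintype.card_fin, hS]
  rw [e1, Finset.sum_map]

/-- an enumeration of `S` -/
theorem ex_emb {n : ℕ} (S : Finset (Fin n)) : ∃ e : Fin S.card ↪ Fin n, (∀ j, e j ∈ S) ∧
    ∀ i, i ∉ Finset.univ.map e → i ∉ S := by
  refine ⟨(S.orderEmbOfFin rfl).toEmbedding, fun j => S.orderEmbOfFin_mem rfl j, ?_⟩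
  intro i hi h1
  refine hi ?_
  have h2 : i ∈ Set.range (S.orderEmbOfFin rfl) := by
    rw [Finset.range_orderEmbOfFin]
    exact h1
  obtain ⟨a, ha⟩ := h2
  rw [Finset.mem_map]
  exact ⟨a, Finset.mem_univ _, ha⟩

/-- On a set `S` of the points `w` is at most a vector `v` which is near-uniform there
(`NearOn`), and equal to it or with `χ (d; v on S) ≥ 0`; at the other points `w` is at most `1`. -/
def Dominated {n : ℕ} (d : ℕ) (w : Fin n → ℕ) : Prop :=
  ∃ (S : Finset (Fin n)) (v : Fin n → ℕ), NearOn v S ∧ (∀ i ∈ S, w i ≤ v i) ∧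
    (∀ i, i ∉ S → w i ≤ 1) ∧
    ((∀ i ∈ S, w i = v i) ∨ ∑ i ∈ S, (v i + 1).choose 2 ≤ (d + 2).choose 2)

theorem dom_exp {n d : ℕ} {w : Fin n → ℕ} (h : Dominated d w)
    {K : Type} [Field K] [CharZero K] {P : Fin n → Fin 2 → K}
    (hP : AlgebraicIndependent ℚ (fun ij : Fin n × Fin 2 => P ij.1 ij.2)) : ExpDim K w P d := by
  obtain ⟨S, v, hr, hle, h1, h2⟩ := h
  obtain ⟨e, he, he2⟩ := ex_emb S
  have hr' := near_emb rfl he hr
  obtain ⟨F, hF, hF'⟩ := near_final hr' K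
  have h3 := Pool.Agent.TH885.CO.exp_plus e (w := w) (d := d) (fun i hi => h1 i (he2 i hi))
    ⟨F, hF, fun Q hQ => by
      rcases h2 with h2 | h2
      · have e1 : (fun j => w (e j)) = fun j => v (e j) := funext fun j => h2 _ (he j)
        rw [e1]
        exact hF' Q hQ d
      · refine exp_mono (hF' Q hQ d) ?_ fun j => hle _ (he j)
        rw [sum_emb (fun i => (v i + 1).choose 2) rfl he]
        exact h2⟩ hP
  have h4 : Module.finrank K ↥(Pool.Agent.TH167.SHDefs.sys P d w) =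
      (d + 2).choose 2 - ∑ j, (w j + 1).choose 2 := by
    rw [Pool.Agent.TH885.CO.sys_eq]
    exact h3
  exact h4

/-- in an open set -/
theorem dom_open {n d : ℕ} {w : Fin n → ℕ} (h : Dominated d w) :
    ∃ F : MvPolynomial (Fin n × Fin 2) ℚ, F ≠ 0 ∧ ∀ {L : Type} [Field L] [CharZero L]
      (P : Fin n → Fin 2 → L),
      MvPolynomial.aeval (fun ij : Fin n × Fin 2 => P ij.1 ij.2) F ≠ 0 → ExpDim L w P d :=
  to_open fun hP => dom_exp h hP

/-- near-uniform on `S` and at most `1` elsewhere -/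
theorem dom_of {n d : ℕ} {w : Fin n → ℕ} {S : Finset (Fin n)} (h : NearOn w S)
    (h1 : ∀ i, i ∉ S → w i ≤ 1) : Dominated d w :=
  ⟨S, w, h, fun _ _ => le_rfl, h1, Or.inl fun _ _ => rfl⟩

theorem NearOn.m15 {n : ℕ} {v : Fin n → ℕ} {S : Finset (Fin n)} (h : NearOn v S) : 36 ≤ S.card :=
  h.1

end Pool.Agent.X214.NV
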