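import Pool.Agent.X214.NV.Dom
import Pool.Agent.TH885.CO.Fin

/-! Segre's conjecture for classes with a dominated reduction (after `TH885.CO.segre_q`). -/

set_option autoImplicit false

namespace Pool.Agent.X214.NV

open MvPolynomial Pool.Agent Pool.Agent.TH167 Pool.Agent.W609.CR Pool.Agent.TH885.CO

theorem sq_sum {n : ℕ} {v : Fin n → ℕ} {S : Finset (Fin n)} {m : ℕ} (hv : ∀ i ∈ S, m ≤ v i) :
    S.card * (m * (m + 1)) ≤ 2 * ∑ i ∈ S, (v i + 1).choose 2 := by
  have h1 : ∀ i ∈ S, m * (m + 1) ≤ 2 * (v i + 1).choose 2 := by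
    intro i hi
    have h2 : 2 * (v i + 1).choose 2 = v i * (v i + 1) := by
      rw [Nat.choose_two_right, Nat.add_sub_cancel, mul_comm 2,
        Nat.div_mul_cancel (by rw [mul_comm]; exact (Nat.even_mul_succ_self (v i)).two_dvd)]
      ring
    rw [h2]
    exact Nat.mul_le_mul (hv i hi) (Nat.succ_le_succ (hv i hi))
  have h3 := Finset.sum_le_sum h1
  rw [Finset.sum_const, smul_eq_mul, ← Finset.mul_sum] at h3
  exact h3

theorem dom_reduced {n d : ℕ} {w : Fin n → ℕ} (h : Dominated d w)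
    (hd : ∑ i, (w i + 1).choose 2 < (d + 2).choose 2) : Reduced d w := by
  obtain ⟨S, v, ⟨h36, m, hm, hv⟩, hle, h1, h2⟩ := h
  have hw : ∀ i, w i ≤ m + 1 := by
    intro i
    by_cases hi : i ∈ S
    · have := hle i hi
      rcases hv i hi with h3 | h3 <;> omega
    · have := h1 i hi
      omega
  have hS : 2 * ∑ i ∈ S, (v i + 1).choose 2 ≤ (d + 2) * (d + 1) := by
    have e2 : 2 * (d + 2).choose 2 = (d + 2) * (d + 1) := by
      rw [Nat.choose_two_right, mul_comm 2]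
      exact Nat.div_mul_cancel (Nat.even_mul_pred_self (d + 2)).two_dvd
    rw [← e2]
    refine Nat.mul_le_mul_left 2 ?_
    rcases h2 with h2 | h2
    · refine le_trans ?_ hd.le
      have e3 : ∑ i ∈ S, (v i + 1).choose 2 = ∑ i ∈ S, (w i + 1).choose 2 :=
        Finset.sum_congr rfl fun i hi => by rw [h2 i hi]
      rw [e3]
      exact Finset.sum_le_sum_of_subset (Finset.subset_univ S)
    · exact h2
  have h5 := sq_sum (v := v) (S := S) (m := m) fun i hi => by
    rcases hv i hi with h3 | h3 <;> omega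
  have h6 : 36 * (m * (m + 1)) ≤ (d + 2) * (d + 1) :=
    (Nat.mul_le_mul_right _ h36).trans (h5.trans hS)
  have h7 : 3 * (m + 1) ≤ d := by
    by_contra hc
    have h8 : d + 1 ≤ 3 * (m + 1) := by omega
    have h9 : (d + 2) * (d + 1) ≤ (3 * (m + 1) + 1) * (3 * (m + 1)) :=
      Nat.mul_le_mul (by omega) h8
    nlinarith
  intro i j k _ _ _
  have := hw i
  have := hw j
  have := hw k
  omega

/-- Segre's conjecture for a class `(d, w)` which reduces to a dominated class. -/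
theorem dom_segre {s d d1 : ℕ} {w w1 : Fin s → ℕ} (hD : Dominated d1 w1)
    (h : Relation.ReflTransGen (fun a b => SHDefs.Quadratic a b ∨ LineStep a b) (d, w) (d1, w1)) :
    ∃ F : MvPolynomial (Fin s × Fin 2) ℚ, F ≠ 0 ∧ ∀ (K : Type) [Field K] [CharZero K]
      (P : Fin s → Fin 2 → K), evP P F ≠ 0 →
        (SHDefs.Special P d w → ∃ (G : MvPolynomial (Fin 3) K) (e : ℕ) (u : Fin s → ℕ),
          SHDefs.MinusOne P G e u ∧ SHDefs.inter d w e u ≤ -2 ∧
            ∀ f ∈ SHDefs.sys P d w, G ^ 2 ∣ f) ∧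
        (Relation.ReflTransGen SHDefs.Quadratic (d, w) (d1, w1) → ¬ SHDefs.Special P d w) := by
  classical
  have h36 : 36 ≤ s := by
    obtain ⟨S, v, h1, -⟩ := hD
    have h2 := h1.m15
    have h3 := Finset.card_le_univ S
    rw [Fintype.card_fin] at h3
    omega
  obtain ⟨r, rfl⟩ : ∃ r, s = r + 4 := ⟨s - 4, by omega⟩
  have hexp' : ∀ (K : Type) [Field K] [CharZero K] (P : Fin (r + 4) → Fin 2 → K),
      AlgebraicIndependent ℚ (fun ij : Fin (r + 4) × Fin 2 => P ij.1 ij.2) →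
      Module.finrank K ↥(VS (fun j => aff (P j)) w1 d1) =
        (d1 + 2).choose 2 - ∑ j, (w1 j + 1).choose 2 := by
    intro K _ _ P hP
    have h4 : Module.finrank K ↥(SHDefs.sys P d1 w1) =
      (d1 + 2).choose 2 - ∑ j, (w1 j + 1).choose 2 := dom_exp hD hP
    rw [sys_eq] at h4
    exact h4
  obtain ⟨F1, hF1, hF1'⟩ := special_of (step_of h) hexp' (dom_reduced hD)
  obtain ⟨F2, hF2, hF2'⟩ := exists_inj r
  obtain ⟨F3, hF3, hF3'⟩ : ∃ F : MvPolynomial (Fin (r + 4) × Fin 2) ℚ, F ≠ 0 ∧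
      ∀ (K : Type) [Field K] [CharZero K] (P : Fin (r + 4) → Fin 2 → K), evP P F ≠ 0 →
        Relation.ReflTransGen SHDefs.Quadratic (d, w) (d1, w1) → ¬ Special P d w := by
    by_cases hq : Relation.ReflTransGen SHDefs.Quadratic (d, w) (d1, w1)
    · obtain ⟨F, hF, hF'⟩ := never_of
        (rtg_mono (fun _ _ h => quad_of h) hq) hexp'
      exact ⟨F, hF, fun K _ _ P hP _ => hF' K P hP⟩
    · exact ⟨1, one_ne_zero, fun K _ _ P _ h1 => absurd h1 hq⟩
  refine ⟨F1 * F2 * F3, mul_ne_zero (mul_ne_zero hF1 hF2) hF3, fun K _ _ P hP => ?_⟩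
  rw [map_mul, map_mul] at hP
  have q1 := left_ne_zero_of_mul (left_ne_zero_of_mul hP)
  have q2 := right_ne_zero_of_mul (left_ne_zero_of_mul hP)
  have q3 := right_ne_zero_of_mul hP
  refine ⟨fun hs => ?_, fun hq hs => ?_⟩
  · rw [special_conv] at hs
    obtain ⟨G, e', u, h1, h2⟩ := mspecial_curve ((mspecial_conv P d w).2 (hF1' K P q1 hs))
    exact ⟨G, e', u, h1, h2, fun f hf => curve_sq_dvd (hF2' K P q2) h1 h2 hf⟩
  · rw [special_conv] at hs
    exact hF3' K P q3 hq hs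

/-- The statement for general points of the complex plane. -/
theorem dom_segreC {s d d1 : ℕ} {w w1 : Fin s → ℕ} (hD : Dominated d1 w1)
    (h : Relation.ReflTransGen (fun a b => SHDefs.Quadratic a b ∨ LineStep a b) (d, w) (d1, w1)) :
    ∃ F : MvPolynomial (Fin s × Fin 2) ℂ, F ≠ 0 ∧ ∀ P : Fin s → Fin 2 → ℂ,
      MvPolynomial.eval (fun ij : Fin s × Fin 2 => P ij.1 ij.2) F ≠ 0 →
        (SHDefs.Special P d w → ∃ (G : MvPolynomial (Fin 3) ℂ) (e : ℕ) (u : Fin s → ℕ),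
          SHDefs.MinusOne P G e u ∧ SHDefs.inter d w e u ≤ -2 ∧
            ∀ f ∈ SHDefs.sys P d w, G ^ 2 ∣ f) ∧
        (Relation.ReflTransGen SHDefs.Quadratic (d, w) (d1, w1) → ¬ SHDefs.Special P d w) := by
  obtain ⟨F, hF, hF'⟩ := dom_segre hD h
  refine ⟨F.map (algebraMap ℚ ℂ), map_ne hF, fun P hP => ?_⟩
  rw [evP_eval] at hP
  exact hF' ℂ P hP

end Pool.Agent.X214.NV
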