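import Pool.Agent.X214.NV.Dom
import Pool.Agent.TH442.NF.Std

set_option autoImplicit false

/-!
# The Weyl group orbit of the class of an irreducible curve, and near-uniform vectors
(the first lemmas are those of `Pool.Agent.Y939.NC.Orbit`)
-/

namespace Pool.Agent.X214.NV

open MvPolynomial Pool.Agent.W609 Pool.Agent.W609.CR Pool.Agent.TH167 Pool.Agent.TH167.SH
  Pool.Agent.H932R3 Pool.Agent.TH442.NF

/-- Near-uniform (`NearOn`) on some of the points, and at most `1` at the others. -/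
def NearPlus {n : ℕ} (v : Fin n → ℕ) : Prop :=
  ∃ S : Finset (Fin n), NearOn v S ∧ ∀ i, i ∉ S → v i ≤ 1

/-- An irreducible curve which is not a `(-1)`-curve meets all `(-1)`-curves nonnegatively. -/
theorem enef_curve {K : Type} [Field K] [CharZero K] {s : ℕ} {P : Fin s → Fin 2 → K}
    (hinj : Function.Injective P) {C : MvPolynomial (Fin 3) K} {d : ℕ} {w : Fin s → ℕ}
    (hC : Irreducible C) (hCd : C.IsHomogeneous d) (hCo : ∀ j, Ord (aff (P j)) (w j) C)
    (hne : ¬ (ip d w d w = -1 ∧ kk d w = 1)) : ENef P d w := by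
  intro G e u hE
  by_cases hdvd : G ∣ C
  · exfalso
    obtain ⟨H, hH⟩ := hdvd
    have hu : IsUnit H := by
      rcases hC.isUnit_or_isUnit hH with h | h
      · exact absurd h hE.irr.not_isUnit
      · exact h
    obtain ⟨c, hc, rfl⟩ : ∃ c : K, c ≠ 0 ∧ H = MvPolynomial.C c := by
      have h10 := MvPolynomial.isUnit_iff_eq_C_of_isReduced.1 hu
      obtain ⟨c, hc, rfl⟩ := h10
      exact ⟨c, hc.ne_zero, rfl⟩
    have hde : d = e := by
      have t1 : C.totalDegree = d := hCd.totalDegree hC.ne_zero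
      have t2 : G.totalDegree = e := hE.hom.totalDegree hE.irr.ne_zero
      rw [hH, MvPolynomial.totalDegree_mul_of_isDomain hE.irr.ne_zero hu.ne_zero,
        MvPolynomial.totalDegree_C, t2] at t1
      omega
    have hwu : w = u := by
      funext j
      have t1 : Ord (aff (P j)) (u j + 0) (G * MvPolynomial.C c) := by
        refine ord_mul (hE.ord j) ⟨van_zero _ _, fun h => ?_⟩
        rw [zero_add, van_one, MvPolynomial.eval_C] at h
        exact hc h
      rw [add_zero, ← hH] at t1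
      exact ord_unique (hCo j) t1
    subst hde hwu
    exact hne ⟨self_iff.1 hE.self, can_iff.1 hE.can⟩
  · have hbez := bez hinj hE.irr hE.hom (fun j => (hE.ord j).1) hC.ne_zero hCd
      (fun j => (hCo j).1) hdvd
    have h3 : (∑ j, (w j : ℤ) * u j) = ((∑ j, u j * w j : ℕ) : ℤ) := by
      push_cast
      exact Finset.sum_congr rfl fun j _ => mul_comm _ _
    unfold ip
    rw [h3, mul_comm (d : ℤ)]
    have : ((∑ j, u j * w j : ℕ) : ℤ) ≤ ((e * d : ℕ) : ℤ) := by exact_mod_cast hbez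
    push_cast at this ⊢
    linarith

/-- The orbit of the class of an irreducible curve which is not a `(-1)`-curve. -/
theorem orbit_eff {K : Type} [Field K] [CharZero K] {s : ℕ} {P : Fin s → Fin 2 → K}
    (hP : AlgebraicIndependent ℚ (fun ij : Fin s × Fin 2 => P ij.1 ij.2))
    {C : MvPolynomial (Fin 3) K} {d : ℕ} {w : Fin s → ℕ}
    (hC : Irreducible C) (hCd : C.IsHomogeneous d) (hCo : ∀ j, Ord (aff (P j)) (w j) C)
    (hne : ¬ (ip d w d w = -1 ∧ kk d w = 1)) {b : ℤ × (Fin s → ℤ)} (hb : Ch (cls d w) b) :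
    ∃ (d' : ℕ) (w' : Fin s → ℕ), b = cls d' w' ∧
      0 < Module.finrank K ↥(VS (fun j => aff (P j)) w' d') ∧ ip d' w' d' w' = ip d w d w ∧
      kk d' w' = kk d w := by
  obtain ⟨P1, d1, w1, hP1, -, rfl, -, hd⟩ :=
    echain hP (enef_curve (inj_of_alg hP) hC hCd hCo hne) hb
  have hmem : C ∈ VS (fun j => aff (P j)) w d := (mem_VS _ _ _ _).2 ⟨hCd, fun j => (hCo j).1⟩
  have hfin := vs_fin (fun j => aff (P j)) w d
  have hpos : 0 < Module.finrank K ↥(VS (fun j => aff (P j)) w d) :=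
    Module.finrank_pos_iff.2 ⟨⟨C, hmem⟩, 0, fun h7 => hC.ne_zero (congrArg Subtype.val h7)⟩
  obtain ⟨h1, h2⟩ := hb.inv
  refine ⟨d1, w1, rfl, ?_, h1, h2⟩
  rw [dim_same hP hP1, hd]
  exact hpos

theorem two_cond {n : ℕ} (v : Fin n → ℕ) :
    (∑ j, (v j + 1).choose 2) * 2 = ∑ j, v j ^ 2 + ∑ j, v j := by
  rw [Finset.sum_mul, ← Finset.sum_add_distrib]
  refine Finset.sum_congr rfl fun j _ => ?_
  rw [Nat.choose_two_right, Nat.add_sub_cancel,
    Nat.div_mul_cancel (by rw [mul_comm]; exact (Nat.even_mul_succ_self (v j)).two_dvd)]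
  ring

theorem two_deg (d : ℕ) : (d + 2).choose 2 * 2 = (d + 2) * (d + 1) := by
  rw [Nat.choose_two_right]
  exact Nat.div_mul_cancel (Nat.even_mul_pred_self (d + 2)).two_dvd

/-- Effective classes above a near-uniform vector. -/
theorem reg_bound {K : Type} [Field K] [CharZero K] {n : ℕ}
    {P : Fin n → Fin 2 → K}
    (hP : AlgebraicIndependent ℚ (fun ij : Fin n × Fin 2 => P ij.1 ij.2))
    {v : Fin n → ℕ} (hv : NearPlus v) {d : ℕ} {w : Fin n → ℕ} (hle : ∀ j, v j ≤ w j)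
    (hpos : 0 < Module.finrank K ↥(VS (fun j => aff (P j)) w d)) :
    ∑ j, v j ^ 2 + ∑ j, v j ≤ d ^ 2 + 3 * d := by
  obtain ⟨S, hS, hS1⟩ := hv
  have h2 : Module.finrank K ↥(Pool.Agent.H248R5.forms v P d) =
      (d + 2).choose 2 - ∑ j, (v j + 1).choose 2 := dom_exp (dom_of hS hS1) hP
  have hle1 : Pool.Agent.H248R5.forms w P d ≤ Pool.Agent.H248R5.forms v P d := by
    intro G hG
    unfold Pool.Agent.H248R5.forms at hG ⊢
    rw [Submodule.mem_inf, Submodule.restrictScalars_mem, Ideal.mem_iInf] at hG ⊢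
    exact ⟨hG.1, fun j => Ideal.pow_le_pow_right (hle j) (hG.2 j)⟩
  have hfin : Module.Finite K ↥(Pool.Agent.H248R5.forms v P d) := by
    have h : Module.Finite K ↥(homogeneousSubmodule (Fin 3) K d) :=
      Module.Finite.iff_fg.2 (homogeneousSubmodule_fg _ _ d)
    exact Submodule.finiteDimensional_of_le (S₁ := Pool.Agent.H248R5.forms v P d)
      (S₂ := homogeneousSubmodule (Fin 3) K d) inf_le_left
  have h3 := Submodule.finrank_mono hle1
  have h4 : VS (fun j => aff (P j)) w d = Pool.Agent.H248R5.forms w P d := vs_eq_forms P w d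
  rw [h4] at hpos
  have h5 : ∑ j, (v j + 1).choose 2 < (d + 2).choose 2 := by omega
  have e2 := two_deg d
  have e1 := two_cond v
  nlinarith

/-- The numerical part. -/
theorem num_bound {k : ℕ} {v : Fin k → ℕ} {d : ℕ}
    (h : ∑ j, v j ^ 2 + ∑ j, v j ≤ d ^ 2 + 3 * d) :
    (∑ j, (v j : ℝ) ^ 2) + (∑ j, (v j : ℝ) - 3 * d) ≤ (d : ℝ) ^ 2 ∧
      ((∀ j, 36 * v j + 18 ≤ ∑ j, v j) →
        (∑ j, (v j : ℝ) ^ 2) + (∑ j, (v j : ℝ)) / 2 ≤ (d : ℝ) ^ 2) := by
  have hR : (∑ j, (v j : ℝ) ^ 2) + ∑ j, (v j : ℝ) ≤ (d : ℝ) ^ 2 + 3 * d := by exact_mod_cast h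
  obtain ⟨S, hS⟩ : ∃ S, S = ∑ j, (v j : ℝ) := ⟨_, rfl⟩
  obtain ⟨Q, hQ⟩ : ∃ Q, Q = ∑ j, (v j : ℝ) ^ 2 := ⟨_, rfl⟩
  have hd0 : (0 : ℝ) ≤ d := Nat.cast_nonneg d
  refine ⟨by linarith, fun h36 => ?_⟩
  have hQS : 36 * Q + 18 * S ≤ S ^ 2 := by
    have e1 : S ^ 2 = ∑ j, (v j : ℝ) * S := by rw [← Finset.sum_mul, ← hS]; ring
    rw [e1, hQ]
    have e2 : 18 * S = ∑ j, 18 * (v j : ℝ) := by rw [← Finset.mul_sum, ← hS]
    rw [e2, Finset.mul_sum, ← Finset.sum_add_distrib]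
    refine Finset.sum_le_sum fun j _ => ?_
    have h1 : 36 * (v j : ℝ) + 18 ≤ S := by
      rw [hS]
      exact_mod_cast h36 j
    have h2 : (0 : ℝ) ≤ v j := Nat.cast_nonneg _
    nlinarith
  rw [← hS, ← hQ] at hR ⊢
  rcases le_or_gt (3 * (d : ℝ)) (S / 2) with h1 | h1
  · linarith
  · have hS0 : 0 ≤ S := by
      rw [hS]
      exact Finset.sum_nonneg fun j _ => Nat.cast_nonneg _
    nlinarith

end Pool.Agent.X214.NV
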